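import Mathlib
import Pool.Agent.helper85.PG.Spec3

/-! pg:BOG: Bogolyubov's theorem. -/

set_option autoImplicit false

namespace Pool.Agent.helper85.PG

open Module Pointwise

theorem BOG_conj {m : ℕ} [NeZero m] (y : ZMod m) :
    (starRingEnd ℂ) (ZMod.stdAddChar y : ℂ) = ZMod.stdAddChar (-y) := by
  rw [AddChar.map_neg_eq_conj]

theorem BOG_sum {m : ℕ} [NeZero m] (b : ZMod m) :
    ∑ r : ZMod m, (ZMod.stdAddChar (r * b) : ℂ) = if b = 0 then (m : ℂ) else 0 := by
  have h := AddChar.sum_mulShift (R := ZMod m) (R' := ℂ) b (ZMod.isPrimitive_stdAddChar m)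
  rw [h, ZMod.card]
  split_ifs
  · rfl
  · exact Nat.cast_zero

theorem BOG : BOG_stmt := by
  intro m _ A α hα hA
  classical
  set e : AddChar (ZMod m) ℂ := ZMod.stdAddChar with he
  set F : ZMod m → ℂ := fun r => ∑ a ∈ A, e (r * a) with hF
  have hm : (0 : ℝ) < m := by
    have := Nat.pos_of_ne_zero (NeZero.ne m)
    exact_mod_cast this
  have hA0 : (0 : ℝ) < A.card := lt_of_lt_of_le (mul_pos hα hm) hA
  have hAm : (A.card : ℝ) ≤ m := by
    have h := Finset.card_le_univ A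
    rw [ZMod.card] at h
    exact_mod_cast h
  have hα1 : α ≤ 1 := by
    by_contra hc
    push Not at hc
    nlinarith
  have hconj : ∀ r, (starRingEnd ℂ) (F r) = ∑ a ∈ A, e (-(r * a)) := by
    intro r
    rw [hF]
    simp only [map_sum]
    apply Finset.sum_congr rfl
    intro a _
    exact BOG_conj _
  have hnorm : ∀ r, ((‖F r‖ ^ 2 : ℝ) : ℂ) = F r * (starRingEnd ℂ) (F r) := by
    intro r
    rw [Complex.mul_conj, Complex.normSq_eq_norm_sq]
  -- Parseval
  have hpar : ∑ r : ZMod m, ‖F r‖ ^ 2 = (m : ℝ) * A.card := by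
    have h1 : ((∑ r : ZMod m, ‖F r‖ ^ 2 : ℝ) : ℂ) = ((m : ℝ) * A.card : ℝ) := by
      rw [Complex.ofReal_sum]
      have h2 : ∀ r, ((‖F r‖ ^ 2 : ℝ) : ℂ) = ∑ a ∈ A, ∑ b ∈ A, e (r * (a - b)) := by
        intro r
        rw [hnorm, hconj]
        show (∑ a ∈ A, e (r * a)) * (∑ a ∈ A, e (-(r * a))) = _
        rw [Finset.sum_mul_sum]
        apply Finset.sum_congr rfl
        intro a _
        apply Finset.sum_congr rfl
        intro b _
        rw [← AddChar.map_add_eq_mul]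
        congr 1
        ring
      rw [Finset.sum_congr rfl (fun r _ => h2 r), Finset.sum_comm]
      have h3 : ∀ a ∈ A, ∑ r : ZMod m, ∑ b ∈ A, e (r * (a - b)) = (m : ℂ) := by
        intro a ha
        rw [Finset.sum_comm]
        have h4 : ∀ b ∈ A, ∑ r : ZMod m, e (r * (a - b)) = if a = b then (m : ℂ) else 0 := by
          intro b _
          rw [BOG_sum]
          by_cases hab : a = b
          · rw [if_pos hab, if_pos (sub_eq_zero.mpr hab)]
          · rw [if_neg hab, if_neg (fun h => hab (sub_eq_zero.mp h))]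
        rw [Finset.sum_congr rfl h4, Finset.sum_ite_eq, if_pos ha]
      rw [Finset.sum_congr rfl h3, Finset.sum_const, nsmul_eq_mul]
      push_cast
      ring
    exact_mod_cast h1
  have hF0 : F 0 = A.card := by
    show ∑ a ∈ A, e (0 * a) = _
    have : ∀ a ∈ A, e (0 * a) = 1 := by
      intro a _
      rw [zero_mul, AddChar.map_zero_eq_one]
    rw [Finset.sum_congr rfl this, Finset.sum_const, nsmul_eq_mul, mul_one]
  set Γ : Finset (ZMod m) := Finset.univ.filter (fun r => α * (A.card : ℝ) ^ 2 ≤ ‖F r‖ ^ 2) with hΓ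
  refine ⟨Γ, ?_, ?_⟩
  · have h1 : (Γ.card : ℝ) * (α * (A.card : ℝ) ^ 2) ≤ ∑ r ∈ Γ, ‖F r‖ ^ 2 := by
      rw [← nsmul_eq_mul, ← Finset.sum_const]
      apply Finset.sum_le_sum
      intro r hr
      rw [hΓ, Finset.mem_filter] at hr
      exact hr.2
    have h2 : ∑ r ∈ Γ, ‖F r‖ ^ 2 ≤ ∑ r : ZMod m, ‖F r‖ ^ 2 :=
      Finset.sum_le_sum_of_subset_of_nonneg (Finset.subset_univ _) (fun r _ _ => by positivity)
    rw [hpar] at h2
    have h3 : (Γ.card : ℝ) * (α * (A.card : ℝ) ^ 2) ≤ m * A.card := h1.trans h2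
    rw [le_div_iff₀ (by positivity)]
    have h4 : (Γ.card : ℝ) * (α * A.card) ≤ m := by
      have : (Γ.card : ℝ) * (α * A.card) * A.card ≤ m * A.card := by
        calc (Γ.card : ℝ) * (α * A.card) * A.card = (Γ.card : ℝ) * (α * (A.card : ℝ) ^ 2) := by ring
          _ ≤ m * A.card := h3
      exact le_of_mul_le_mul_right this hA0
    have h5 : (Γ.card : ℝ) * α ^ 2 * m ≤ 1 * m := by
      calc (Γ.card : ℝ) * α ^ 2 * m = (Γ.card : ℝ) * α * (α * m) := by ring
        _ ≤ (Γ.card : ℝ) * α * A.card := mul_le_mul_of_nonneg_left hA (by positivity)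
        _ = (Γ.card : ℝ) * (α * A.card) := by ring
        _ ≤ 1 * m := by rw [one_mul]; exact h4
    exact le_of_mul_le_mul_right h5 hm
  · intro x hx
    by_contra hnot
    have hne : ∀ a ∈ A, ∀ b ∈ A, ∀ c ∈ A, ∀ d ∈ A, a + b - c - d - x ≠ 0 := by
      intro a ha b hb c hc d hd h
      apply hnot
      have : x = a + b - c - d := (sub_eq_zero.mp h).symm
      rw [this]
      exact Finset.sub_mem_sub (Finset.sub_mem_sub (Finset.add_mem_add ha hb) hc) hd
    have h4 : ∀ r, F r * F r * ((starRingEnd ℂ) (F r) * (starRingEnd ℂ) (F r)) * e (-(r * x)) =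
        ∑ a ∈ A, ∑ b ∈ A, ∑ c ∈ A, ∑ d ∈ A, e (r * (a + b - c - d - x)) := by
      intro r
      rw [hconj]
      show (∑ a ∈ A, e (r * a)) * (∑ a ∈ A, e (r * a)) *
        ((∑ a ∈ A, e (-(r * a))) * (∑ a ∈ A, e (-(r * a)))) * e (-(r * x)) = _
      rw [Finset.sum_mul_sum, Finset.sum_mul_sum, Finset.sum_mul, Finset.sum_mul]
      apply Finset.sum_congr rfl
      intro a _
      rw [Finset.sum_mul, Finset.sum_mul]
      apply Finset.sum_congr rfl
      intro b _
      rw [Finset.mul_sum, Finset.sum_mul]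
      apply Finset.sum_congr rfl
      intro c _
      rw [Finset.mul_sum, Finset.sum_mul]
      apply Finset.sum_congr rfl
      intro d _
      rw [← AddChar.map_add_eq_mul, ← AddChar.map_add_eq_mul, ← AddChar.map_add_eq_mul,
        ← AddChar.map_add_eq_mul]
      congr 1
      ring
    have h5 : ∑ r : ZMod m, F r * F r * ((starRingEnd ℂ) (F r) * (starRingEnd ℂ) (F r)) * e (-(r * x)) = 0 := by
      rw [Finset.sum_congr rfl (fun r _ => h4 r), Finset.sum_comm]
      apply Finset.sum_eq_zero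
      intro a ha
      rw [Finset.sum_comm]
      apply Finset.sum_eq_zero
      intro b hb
      rw [Finset.sum_comm]
      apply Finset.sum_eq_zero
      intro c hc
      rw [Finset.sum_comm]
      apply Finset.sum_eq_zero
      intro d hd
      rw [BOG_sum, if_neg (hne a ha b hb c hc d hd)]
    have h6 : ∀ r, (F r * F r * ((starRingEnd ℂ) (F r) * (starRingEnd ℂ) (F r)) * e (-(r * x))).re =
        ‖F r‖ ^ 4 * (e (r * x)).re := by
      intro r
      have e1 : F r * F r * ((starRingEnd ℂ) (F r) * (starRingEnd ℂ) (F r)) =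
          ((‖F r‖ ^ 4 : ℝ) : ℂ) := by
        have : F r * F r * ((starRingEnd ℂ) (F r) * (starRingEnd ℂ) (F r)) =
          (F r * (starRingEnd ℂ) (F r)) * (F r * (starRingEnd ℂ) (F r)) := by ring
        rw [this, ← hnorm, ← Complex.ofReal_mul]
        congr 1
        ring
      have e2 : (e (-(r * x))).re = (e (r * x)).re := by
        have : e (-(r * x)) = (starRingEnd ℂ) (e (r * x)) := (BOG_conj (r * x)).symm
        rw [this, Complex.conj_re]
      rw [e1, Complex.re_ofReal_mul, e2]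
    have h7 : ∑ r : ZMod m, ‖F r‖ ^ 4 * (e (r * x)).re = 0 := by
      have := congrArg Complex.re h5
      rw [Complex.re_sum, Finset.sum_congr rfl (fun r _ => h6 r), Complex.zero_re] at this
      exact this
    have h0Γ : (0 : ZMod m) ∈ Γ := by
      rw [hΓ, Finset.mem_filter]
      refine ⟨Finset.mem_univ _, ?_⟩
      rw [hF0, Complex.norm_natCast]
      have : 0 ≤ (A.card : ℝ) ^ 2 := by positivity
      nlinarith
    -- split
    have h8 : ∑ r ∈ Γ, ‖F r‖ ^ 4 * (e (r * x)).re + ∑ r ∈ Finset.univ \ Γ, ‖F r‖ ^ 4 * (e (r * x)).re = 0 := by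
      rw [← h7, add_comm]
      exact Finset.sum_sdiff (Finset.subset_univ Γ)
    have h9 : (A.card : ℝ) ^ 4 ≤ ∑ r ∈ Γ, ‖F r‖ ^ 4 * (e (r * x)).re := by
      have e1 : ‖F 0‖ ^ 4 * (e (0 * x)).re = (A.card : ℝ) ^ 4 := by
        rw [hF0, Complex.norm_natCast, zero_mul, AddChar.map_zero_eq_one, Complex.one_re, mul_one]
      rw [← e1]
      exact Finset.single_le_sum (f := fun r => ‖F r‖ ^ 4 * (e (r * x)).re)
        (fun r hr => mul_nonneg (by positivity) (hx r hr)) h0Γ
    have h10 : -∑ r ∈ Finset.univ \ Γ, ‖F r‖ ^ 4 * (e (r * x)).re ≤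
        α * (A.card : ℝ) ^ 2 * ∑ r ∈ Finset.univ \ Γ, ‖F r‖ ^ 2 := by
      rw [← Finset.sum_neg_distrib, Finset.mul_sum]
      apply Finset.sum_le_sum
      intro r hr
      rw [Finset.mem_sdiff] at hr
      have hlt : ‖F r‖ ^ 2 < α * (A.card : ℝ) ^ 2 := by
        by_contra hc
        push Not at hc
        apply hr.2
        rw [hΓ, Finset.mem_filter]
        exact ⟨Finset.mem_univ _, hc⟩
      have hre : -(e (r * x)).re ≤ 1 := by
        have h1 := Complex.abs_re_le_norm (e (r * x))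
        rw [AddChar.norm_apply] at h1
        exact (abs_le.mp h1).1 |> fun h => by linarith
      calc -(‖F r‖ ^ 4 * (e (r * x)).re) = ‖F r‖ ^ 4 * (-(e (r * x)).re) := by ring
        _ ≤ ‖F r‖ ^ 4 * 1 := mul_le_mul_of_nonneg_left hre (by positivity)
        _ = ‖F r‖ ^ 2 * ‖F r‖ ^ 2 := by ring
        _ ≤ α * (A.card : ℝ) ^ 2 * ‖F r‖ ^ 2 := mul_le_mul_of_nonneg_right hlt.le (by positivity)
    have h11 : ∑ r ∈ Finset.univ \ Γ, ‖F r‖ ^ 2 ≤ m * A.card - (A.card : ℝ) ^ 2 := by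
      have e1 : ∑ r ∈ Finset.univ \ Γ, ‖F r‖ ^ 2 + ∑ r ∈ Γ, ‖F r‖ ^ 2 = m * A.card := by
        rw [← hpar]
        exact Finset.sum_sdiff (Finset.subset_univ Γ)
      have e2 : (A.card : ℝ) ^ 2 ≤ ∑ r ∈ Γ, ‖F r‖ ^ 2 := by
        have e3 : ‖F 0‖ ^ 2 = (A.card : ℝ) ^ 2 := by
          rw [hF0, Complex.norm_natCast]
        rw [← e3]
        exact Finset.single_le_sum (f := fun r => ‖F r‖ ^ 2) (fun r _ => by positivity) h0Γ
      linarith
    have hc : 0 < α * (A.card : ℝ) ^ 2 := by positivity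
    have h12 : α * (A.card : ℝ) ^ 2 * ∑ r ∈ Finset.univ \ Γ, ‖F r‖ ^ 2 ≤
        α * (A.card : ℝ) ^ 2 * (m * A.card - (A.card : ℝ) ^ 2) := mul_le_mul_of_nonneg_left h11 hc.le
    have h13 : α * (A.card : ℝ) ^ 2 * (m * A.card) ≤ (A.card : ℝ) ^ 4 := by
      calc α * (A.card : ℝ) ^ 2 * (m * A.card) = (α * m) * (A.card : ℝ) ^ 3 := by ring
        _ ≤ A.card * (A.card : ℝ) ^ 3 := mul_le_mul_of_nonneg_right hA (by positivity)
        _ = (A.card : ℝ) ^ 4 := by ring
    have h14 : 0 < α * (A.card : ℝ) ^ 2 * (A.card : ℝ) ^ 2 := by positivity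
    have h15 : α * (A.card : ℝ) ^ 2 * (m * A.card - (A.card : ℝ) ^ 2) =
        α * (A.card : ℝ) ^ 2 * (m * A.card) - α * (A.card : ℝ) ^ 2 * (A.card : ℝ) ^ 2 := by ring
    linarith

end Pool.Agent.helper85.PG
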