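import Mathlib
import Pool.Agent.helper85.PG.Spec3

/-! pg:FNA: Theorem A from Freiman's theorem and Theorem A for systems. -/

set_option autoImplicit false

namespace Pool.Agent.helper85.PG

open Module Pointwise

theorem FNA (hFRE : FRE_stmt) (hTHA : THA_stmt) : FNA_stmt := by
  intro K ε hε
  obtain ⟨d, C, hC, hF⟩ := hFRE K
  obtain ⟨δ, p₀, hδ, hT⟩ := hTHA d (ε / 2) (by linarith)
  set δ₁ : ℝ := min (ε / 4) (δ / 2) with hδ₁
  have hδ₁0 : 0 < δ₁ := lt_min (by linarith) (by linarith)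
  have hδ₁a : δ₁ ≤ ε / 4 := min_le_left _ _
  have hδ₁b : δ₁ ≤ δ / 2 := min_le_right _ _
  refine ⟨δ₁ / 2, max p₀ ⌈C ^ (2 / δ₁)⌉₊, by linarith, ?_⟩
  intro p hp hpp A B hAne hBne hAA hB hE χ hχ β hβ
  classical
  have hp0 : p₀ ≤ p := (le_max_left _ _).trans hpp
  have hpC : C ^ (2 / δ₁) ≤ (p : ℝ) := by
    have h1 : ⌈C ^ (2 / δ₁)⌉₊ ≤ p := (le_max_right _ _).trans hpp
    exact (Nat.le_ceil _).trans (by exact_mod_cast h1)
  have hp1 : (1 : ℝ) ≤ p := by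
    have := hp.out.one_lt.le
    exact_mod_cast this
  have hppos : (0 : ℝ) < p := by linarith
  have hCp : C ≤ (p : ℝ) ^ (δ₁ / 2) := by
    have h1 : (C ^ (2 / δ₁)) ^ (δ₁ / 2) = C := by
      rw [← Real.rpow_mul (by linarith)]
      have : 2 / δ₁ * (δ₁ / 2) = 1 := by field_simp
      rw [this, Real.rpow_one]
    calc C = (C ^ (2 / δ₁)) ^ (δ₁ / 2) := h1.symm
      _ ≤ (p : ℝ) ^ (δ₁ / 2) := Real.rpow_le_rpow (Real.rpow_nonneg (by linarith) _) hpC (by linarith)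
  obtain ⟨P, F, hP, hFC, hPC, hcov⟩ := hF p A hAne hAA
  choose! g hg1 hg2 using hcov
  set N : ℝ := (A.card : ℝ) * (B.card : ℝ) with hN
  have hA0 : (0 : ℝ) < A.card := by exact_mod_cast hAne.card_pos
  have hB0 : (0 : ℝ) < B.card := by exact_mod_cast hBne.card_pos
  have hN0 : 0 ≤ N := by positivity
  have hpδ₁ : 0 < (p : ℝ) ^ (-δ₁) := Real.rpow_pos_of_pos hppos _
  -- each class
  have hcls : ∀ f ∈ F, ∑ a ∈ A.filter (fun a => g a = f), ‖∑ b ∈ B, β b * χ (a + b)‖ ≤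
      (p : ℝ) ^ (-δ₁) * N := by
    intro f _
    set Af := A.filter (fun a => g a = f) with hAf
    have hAfle : (Af.card : ℝ) ≤ A.card := by
      exact_mod_cast Finset.card_le_card (Finset.filter_subset _ _)
    by_cases hcase : (p : ℝ) ^ (-δ₁) * A.card ≤ Af.card
    · have h1 : ∀ a ∈ Af, a - f ∈ P 1 := by
        intro a ha
        rw [hAf, Finset.mem_filter] at ha
        rw [← ha.2]
        exact hg2 a ha.1
      have h2 : ((P 1).card : ℝ) ≤ (p : ℝ) ^ δ * (Af.card : ℝ) := by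
        have e1 : (A.card : ℝ) ≤ (p : ℝ) ^ δ₁ * Af.card := by
          have : (p : ℝ) ^ δ₁ * ((p : ℝ) ^ (-δ₁) * A.card) ≤ (p : ℝ) ^ δ₁ * Af.card :=
            mul_le_mul_of_nonneg_left hcase (Real.rpow_nonneg hppos.le _)
          rw [← mul_assoc, ← Real.rpow_add hppos, add_neg_cancel, Real.rpow_zero, one_mul] at this
          exact this
        calc ((P 1).card : ℝ) ≤ C * A.card := hPC
          _ ≤ (p : ℝ) ^ (δ₁ / 2) * ((p : ℝ) ^ δ₁ * Af.card) :=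
            mul_le_mul hCp e1 hA0.le (Real.rpow_nonneg hppos.le _)
          _ = (p : ℝ) ^ (δ₁ / 2 + δ₁) * Af.card := by
            rw [Real.rpow_add hppos, mul_assoc]
          _ ≤ (p : ℝ) ^ δ * (Af.card : ℝ) := by
            apply mul_le_mul_of_nonneg_right _ (Nat.cast_nonneg _)
            exact Real.rpow_le_rpow_of_exponent_le hp1 (by linarith)
      have h3 : (p : ℝ) ^ (ε / 2) ≤ (B.card : ℝ) :=
        (Real.rpow_le_rpow_of_exponent_le hp1 (by linarith)).trans hB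
      have h4 : (p : ℝ) ^ (1 + ε / 2) * (B.addEnergy B : ℝ) ≤ (Af.card : ℝ) ^ 2 * (B.card : ℝ) ^ 4 := by
        have e1 : (p : ℝ) ^ (1 + ε / 2) = (p : ℝ) ^ (-(ε / 2)) * (p : ℝ) ^ (1 + ε) := by
          rw [← Real.rpow_add hppos]
          congr 1
          ring
        have e2 : (p : ℝ) ^ (-(ε / 2)) ≤ ((p : ℝ) ^ (-δ₁)) ^ 2 := by
          have : ((p : ℝ) ^ (-δ₁)) ^ 2 = (p : ℝ) ^ (-δ₁ + -δ₁) := by
            rw [Real.rpow_add hppos, sq]
          rw [this]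
          exact Real.rpow_le_rpow_of_exponent_le hp1 (by linarith)
        calc (p : ℝ) ^ (1 + ε / 2) * (B.addEnergy B : ℝ)
            = (p : ℝ) ^ (-(ε / 2)) * ((p : ℝ) ^ (1 + ε) * (B.addEnergy B : ℝ)) := by
              rw [e1, mul_assoc]
          _ ≤ (p : ℝ) ^ (-(ε / 2)) * ((A.card : ℝ) ^ 2 * (B.card : ℝ) ^ 4) :=
              mul_le_mul_of_nonneg_left hE (Real.rpow_nonneg hppos.le _)
          _ ≤ ((p : ℝ) ^ (-δ₁)) ^ 2 * ((A.card : ℝ) ^ 2 * (B.card : ℝ) ^ 4) :=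
              mul_le_mul_of_nonneg_right e2 (by positivity)
          _ = ((p : ℝ) ^ (-δ₁) * A.card) ^ 2 * (B.card : ℝ) ^ 4 := by ring
          _ ≤ (Af.card : ℝ) ^ 2 * (B.card : ℝ) ^ 4 := by
              apply mul_le_mul_of_nonneg_right _ (by positivity)
              exact pow_le_pow_left₀ (by positivity) hcase 2
      have h5 := hT p hp0 P hP f Af B h1 h2 h3 h4 χ hχ β hβ
      calc ∑ a ∈ Af, ‖∑ b ∈ B, β b * χ (a + b)‖ ≤ (p : ℝ) ^ (-δ) * ((Af.card : ℝ) * (B.card : ℝ)) := h5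
        _ ≤ (p : ℝ) ^ (-δ₁) * N := by
          apply mul_le_mul _ _ (by positivity) hpδ₁.le
          · exact Real.rpow_le_rpow_of_exponent_le hp1 (by linarith)
          · exact mul_le_mul_of_nonneg_right hAfle hB0.le
    · push Not at hcase
      have h1 : ∀ a ∈ Af, ‖∑ b ∈ B, β b * χ (a + b)‖ ≤ (B.card : ℝ) := by
        intro a _
        calc ‖∑ b ∈ B, β b * χ (a + b)‖ ≤ ∑ b ∈ B, ‖β b * χ (a + b)‖ := norm_sum_le _ _
          _ ≤ ∑ b ∈ B, (1 : ℝ) := by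
            apply Finset.sum_le_sum
            intro b _
            rw [norm_mul]
            have h2 : ‖χ (a + b)‖ ≤ 1 := DirichletCharacter.norm_le_one χ (a + b)
            calc ‖β b‖ * ‖χ (a + b)‖ ≤ 1 * 1 := mul_le_mul (hβ b) h2 (norm_nonneg _) zero_le_one
              _ = 1 := one_mul 1
          _ = (B.card : ℝ) := by rw [Finset.sum_const, nsmul_eq_mul, mul_one]
      calc ∑ a ∈ Af, ‖∑ b ∈ B, β b * χ (a + b)‖ ≤ ∑ a ∈ Af, (B.card : ℝ) := Finset.sum_le_sum h1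
        _ = (Af.card : ℝ) * B.card := by rw [Finset.sum_const, nsmul_eq_mul]
        _ ≤ ((p : ℝ) ^ (-δ₁) * A.card) * B.card := mul_le_mul_of_nonneg_right hcase.le hB0.le
        _ = (p : ℝ) ^ (-δ₁) * N := by rw [hN]; ring
  have hsum : ∑ a ∈ A, ‖∑ b ∈ B, β b * χ (a + b)‖ =
      ∑ f ∈ F, ∑ a ∈ A.filter (fun a => g a = f), ‖∑ b ∈ B, β b * χ (a + b)‖ :=
    (Finset.sum_fiberwise_of_maps_to (fun a ha => hg1 a ha) _).symm
  rw [hsum]
  calc ∑ f ∈ F, ∑ a ∈ A.filter (fun a => g a = f), ‖∑ b ∈ B, β b * χ (a + b)‖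
      ≤ ∑ f ∈ F, (p : ℝ) ^ (-δ₁) * N := Finset.sum_le_sum hcls
    _ = (F.card : ℝ) * ((p : ℝ) ^ (-δ₁) * N) := by rw [Finset.sum_const, nsmul_eq_mul]
    _ ≤ (p : ℝ) ^ (δ₁ / 2) * ((p : ℝ) ^ (-δ₁) * N) :=
      mul_le_mul_of_nonneg_right (hFC.trans hCp) (by positivity)
    _ = (p : ℝ) ^ (-(δ₁ / 2)) * N := by
      rw [← mul_assoc, ← Real.rpow_add hppos]
      congr 2
      ring

end Pool.Agent.helper85.PG
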